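import Pool.Agent.R3B.StmtsB

/-!
# R3B.BIN: polar coordinates in the ball
-/

set_option autoImplicit false

namespace Pool.Agent.R3B.H21

open Set Filter Topology MeasureTheory
open Pool.Agent.BE01F

theorem bin : BinStmt := by
  intro ℓ f hℓ
  unfold intg vol Bl
  have hm : MeasurableSet {x : E 3 | ‖x‖ < ℓ} :=
    (isOpen_lt continuous_norm continuous_const).measurableSet
  rw [← integral_indicator hm]
  have e1 : (fun x : E 3 => indicator {x : E 3 | ‖x‖ < ℓ} (fun x => f ‖x‖) x) =
      fun x : E 3 => (indicator (Iio ℓ) f) ‖x‖ := by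
    funext x
    by_cases hx : ‖x‖ < ℓ
    · rw [indicator_of_mem (show x ∈ {x : E 3 | ‖x‖ < ℓ} from hx),
        indicator_of_mem (show ‖x‖ ∈ Iio ℓ from hx)]
    · rw [indicator_of_notMem (show x ∉ {x : E 3 | ‖x‖ < ℓ} from hx),
        indicator_of_notMem (show ‖x‖ ∉ Iio ℓ from hx)]
  rw [e1, integral_fun_norm_addHaar volume (indicator (Iio ℓ) f)]
  have e2 : ∀ y : ℝ, y ^ (Module.finrank ℝ (E 3) - 1) • indicator (Iio ℓ) f y =
      indicator (Iio ℓ) (fun r => r ^ 2 * f r) y := by
    intro y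
    rw [show Module.finrank ℝ (E 3) - 1 = 2 by simp]
    by_cases hy : y ∈ Iio ℓ
    · rw [indicator_of_mem hy, indicator_of_mem hy, smul_eq_mul]
    · rw [indicator_of_notMem hy, indicator_of_notMem hy, smul_zero]
  simp_rw [e2]
  rw [setIntegral_indicator measurableSet_Iio, Ioi_inter_Iio,
    ← integral_Ioc_eq_integral_Ioo, ← intervalIntegral.integral_of_le hℓ]
  have hv : volume.real (Metric.ball (0 : E 3) 1) = Real.pi * 4 / 3 := by
    rw [Measure.real, EuclideanSpace.volume_ball_fin_three]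
    rw [ENNReal.toReal_mul, ENNReal.toReal_pow, ENNReal.toReal_ofReal zero_le_one,
      ENNReal.toReal_ofReal (by positivity)]
    ring
  simp only [finrank_euclideanSpace, Fintype.card_fin, nsmul_eq_mul, smul_eq_mul]
  rw [hv]
  push_cast
  ring

end Pool.Agent.R3B.H21
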